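import Pool.Agent.R503.PS.Count
import Pool.Agent.R920.CH.TwoC

/-!
# Chern classes of bundles of rank two: almost all possible ones are split
-/

set_option autoImplicit false

open Finset Filter Topology

namespace Pool.Agent.R503.PS

open Pool.Agent.R920.CH Polynomial

/-- the Chern classes of `O(a) + O(b)` -/
def Split (c : ℤ × ℤ) : Prop := ∃ a b : ℤ, c.1 = a + b ∧ c.2 = a * b

lemma rr_split (n : ℕ) (a b : ℤ) : RiemannRoch n (poly2 (a + b) (a * b)) := by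
  intro f hf _
  have h1 : poly2 (a + b) (a * b) = (X - C a) * (X - C b) := by
    unfold poly2
    rw [C_add, C_mul]
    ring
  have h2 : rootsOf (poly2 (a + b) (a * b)) = {(a : ℂ)} + {(b : ℂ)} := by
    rw [h1, rootsOf, Polynomial.map_mul, roots_mul]
    · rw [Polynomial.map_sub, Polynomial.map_sub, map_X, map_C, map_C, roots_X_sub_C,
        roots_X_sub_C]
      rfl
    · rw [Polynomial.map_sub, Polynomial.map_sub, map_X, map_C, map_C]
      exact mul_ne_zero (X_sub_C_ne_zero _) (X_sub_C_ne_zero _)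
  obtain ⟨z, hz⟩ := hf a
  obtain ⟨w, hw⟩ := hf b
  refine ⟨z + w, ?_⟩
  rw [h2, Multiset.map_add, Multiset.sum_add, Multiset.map_singleton, Multiset.map_singleton,
    Multiset.sum_singleton, Multiset.sum_singleton]
  have h3 : ∀ m : ℤ, aeval (m : ℂ) f = ((f.eval (m : ℚ) : ℚ) : ℂ) := by
    intro m
    have := Polynomial.aeval_algebraMap_apply ℂ (m : ℚ) f
    rw [Polynomial.coe_aeval_eq_eval] at this
    simpa using this
  rw [h3, h3, hz, hw]
  push_cast
  rfl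

lemma split_of_square {c₁ c₂ : ℤ} (h : IsSquare (c₁ ^ 2 - 4 * c₂)) : Split (c₁, c₂) := by
  obtain ⟨t, ht⟩ := h
  have h1 : (c₁ - t) * (c₁ + t) = 4 * c₂ := by linear_combination ht
  have h2 : (c₁ - t) % 2 = 0 := by
    have h3 : ((c₁ - t) * (c₁ + t)) % 2 = 0 := by rw [h1]; omega
    rcases Int.emod_two_eq_zero_or_one (c₁ - t) with h4 | h4
    · exact h4
    · exfalso
      have h5 : (c₁ + t) % 2 = 1 := by omega
      have h6 : ((c₁ - t) * (c₁ + t)) % 2 = 1 := by rw [Int.mul_emod, h4, h5]; rfl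
      omega
  obtain ⟨s, hs⟩ := Int.dvd_of_emod_eq_zero h2
  refine ⟨s, s + t, ?_, ?_⟩
  · show c₁ = s + (s + t)
    linarith
  · show c₂ = s * (s + t)
    have h3 : c₁ = 2 * s + t := by linarith
    rw [h3] at h1
    nlinarith

/-- the box -/
noncomputable def box (H : ℕ) : Finset (ℤ × ℤ) := Icc (-(H : ℤ)) H ×ˢ Icc (-(H : ℤ) ^ 2) ((H : ℤ) ^ 2)

open Classical in
/-- the possible Chern classes in the box -/
noncomputable def poss (n H : ℕ) : Finset (ℤ × ℤ) :=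
  (box H).filter fun c => RiemannRoch n (poly2 c.1 c.2)

open Classical in
/-- the possible ones which are not split -/
noncomputable def nons (n H : ℕ) : Finset (ℤ × ℤ) := (poss n H).filter fun c => ¬ Split c

lemma poss_card (n H : ℕ) (hH : 1 ≤ H) : (H : ℝ) ^ 2 / 9 ≤ (poss n H).card := by
  classical
  set m : ℕ := (H + 2) / 3 with hm
  have hm1 : 1 ≤ m := by omega
  have h3m : H ≤ 3 * m := by omega
  have hm3 : 3 * m ≤ H + 2 := by omega
  have hsub : (Ico m (2 * m) ×ˢ range m).image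
      (fun t : ℕ × ℕ => (((t.1 : ℤ) + t.2, (t.1 : ℤ) * t.2) : ℤ × ℤ)) ⊆ poss n H := by
    intro c hc
    rw [mem_image] at hc
    obtain ⟨⟨a, b⟩, hab, rfl⟩ := hc
    rw [mem_product, mem_Ico, mem_range] at hab
    obtain ⟨⟨h1, h2⟩, h3⟩ := hab
    unfold poss box
    rw [mem_filter, mem_product, mem_Icc, mem_Icc]
    simp only at h1 h2 h3 ⊢
    have h4 : (a : ℤ) + b ≤ H := by
      have : a + b ≤ H := by omega
      exact_mod_cast this
    have ha : (0 : ℤ) ≤ a := Int.natCast_nonneg _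
    have hb : (0 : ℤ) ≤ b := Int.natCast_nonneg _
    have hH0 : (0 : ℤ) ≤ H := Int.natCast_nonneg _
    refine ⟨⟨⟨by linarith, h4⟩, ⟨?_, ?_⟩⟩, rr_split n a b⟩
    · have : (0 : ℤ) ≤ a * b := mul_nonneg ha hb
      nlinarith
    · nlinarith
  have hinj : Set.InjOn (fun t : ℕ × ℕ => (((t.1 : ℤ) + t.2, (t.1 : ℤ) * t.2) : ℤ × ℤ))
      (Ico m (2 * m) ×ˢ range m : Finset (ℕ × ℕ)) := by
    rintro ⟨a, b⟩ h ⟨a', b'⟩ h' heq
    rw [mem_coe, mem_product, mem_Ico, mem_range] at h h'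
    simp only [Prod.mk.injEq] at heq h h'
    obtain ⟨e1, e2⟩ := heq
    have h1 : ((a : ℤ) - a') * ((a : ℤ) - b') = 0 := by
      have : (b : ℤ) = a' + b' - a := by linarith
      rw [this] at e2
      linear_combination -e2
    rcases mul_eq_zero.1 h1 with h2 | h2
    · have h3 : a = a' := by omega
      have h4 : b = b' := by omega
      rw [h3, h4]
    · omega
  have h1 := card_le_card hsub
  rw [card_image_of_injOn hinj, card_product, Nat.card_Ico, card_range] at h1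
  have h2 : 2 * m - m = m := by omega
  rw [h2] at h1
  have h3 : ((m * m : ℕ) : ℝ) ≤ (poss n H).card := by exact_mod_cast h1
  refine le_trans ?_ h3
  push_cast
  have h4 : (H : ℝ) ≤ 3 * m := by exact_mod_cast h3m
  have h5 : (0 : ℝ) ≤ H := Nat.cast_nonneg _
  nlinarith

/-- **Almost all possible Chern classes are split.** -/
theorem main (A U : ℕ) : ∃ n₀ : ℕ, ∀ n : ℕ, n₀ ≤ n → ∀ H : ℕ, 1 ≤ H → H ≤ n ^ A →
    ((nons n H).card : ℝ) * Real.log n ^ U ≤ (poss n H).card := by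
  classical
  obtain ⟨x₀, hx₀⟩ := eventually_atTop.1 ((count (2 * A + 3) (U + 1)).and
    ((log_large (81 * 2 ^ U)).and (eventually_ge_atTop 2)))
  refine ⟨x₀ + 1, fun n hn H hH hHn => ?_⟩
  obtain ⟨x, rfl⟩ : ∃ x, n = x + 1 := ⟨n - 1, by omega⟩
  obtain ⟨hcount, hl, hx2⟩ := hx₀ x (by omega)
  set l : ℝ := Real.log x with hldef
  have hl81 : (81 : ℝ) ≤ l := by
    have : (1 : ℝ) ≤ 2 ^ U := one_le_pow₀ (by norm_num)
    linarith
  have hl0 : 0 < l := by linarith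
  set Ds : Finset ℤ := (nons (x + 1) H).image fun c => c.1 ^ 2 - 4 * c.2 with hDs
  have hmem : ∀ c ∈ nons (x + 1) H, (c.1.natAbs ≤ H ∧ c.2.natAbs ≤ H ^ 2) ∧
      RiemannRoch (x + 1) (poly2 c.1 c.2) ∧ ¬ Split c := by
    intro c hc
    unfold nons poss box at hc
    rw [mem_filter, mem_filter, mem_product, mem_Icc, mem_Icc] at hc
    obtain ⟨⟨⟨h1, h2⟩, h3⟩, h4⟩ := hc
    refine ⟨⟨by omega, ?_⟩, h3, h4⟩
    have h5 : |c.2| ≤ (H : ℤ) ^ 2 := abs_le.2 ⟨by linarith [h2.1], h2.2⟩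
    rw [← Int.natCast_natAbs] at h5
    exact_mod_cast h5
  have hX : 5 * H ^ 2 ≤ (x + 1) ^ (2 * A + 3) := by
    have h1 : H ^ 2 ≤ ((x + 1) ^ A) ^ 2 := Nat.pow_le_pow_left hHn 2
    have h2 : 5 ≤ (x + 1) ^ 3 := by
      have : 3 ^ 3 ≤ (x + 1) ^ 3 := Nat.pow_le_pow_left (by omega) 3
      omega
    calc 5 * H ^ 2 ≤ (x + 1) ^ 3 * ((x + 1) ^ A) ^ 2 := Nat.mul_le_mul h2 h1
      _ = (x + 1) ^ (2 * A + 3) := by ring
  have hDcard := hcount (5 * H ^ 2) hX Ds (by
    intro D hD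
    rw [hDs, mem_image] at hD
    obtain ⟨c, hc, rfl⟩ := hD
    obtain ⟨⟨h1, h2⟩, h3, h4⟩ := hmem c hc
    refine ⟨fun h => h4 (split_of_square h), ?_, fun p hp hp2 hpn => square_mod h3 p hp hp2 hpn⟩
    have h5 : (c.1 ^ 2 - 4 * c.2).natAbs ≤ c.1.natAbs ^ 2 + 4 * c.2.natAbs := by
      refine (Int.natAbs_sub_le _ _).trans ?_
      rw [Int.natAbs_pow, Int.natAbs_mul]
      rfl
    have h6 : c.1.natAbs ^ 2 ≤ H ^ 2 := Nat.pow_le_pow_left h1 2
    omega)
  -- the number of pairs with given discriminant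
  have hfib : (nons (x + 1) H).card ≤ (2 * H + 1) * Ds.card := by
    have h1 : (nons (x + 1) H).card ≤ (Icc (-(H : ℤ)) H ×ˢ Ds).card := by
      refine card_le_card_of_injOn (fun c => (c.1, c.1 ^ 2 - 4 * c.2)) ?_ ?_
      · intro c hc
        have h2 := (hmem c hc).1.1
        rw [mem_coe, mem_product, mem_Icc]
        have h3 : -(H : ℤ) ≤ c.1 := by omega
        have h4 : c.1 ≤ (H : ℤ) := by omega
        exact ⟨⟨h3, h4⟩, mem_image_of_mem _ hc⟩
      · rintro ⟨a, b⟩ _ ⟨a', b'⟩ _ h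
        simp only [Prod.mk.injEq] at h ⊢
        obtain ⟨rfl, h2⟩ := h
        exact ⟨rfl, by linarith⟩
    refine h1.trans ?_
    rw [card_product, Int.card_Icc]
    refine Nat.mul_le_mul_right _ ?_
    omega
  have hfib' : ((nons (x + 1) H).card : ℝ) ≤ (2 * H + 1) * Ds.card := by exact_mod_cast hfib
  have hH1 : (1 : ℝ) ≤ H := by exact_mod_cast hH
  have hsq : √((5 * H ^ 2 : ℕ) : ℝ) ≤ 3 * H := by
    apply Real.sqrt_le_left (by positivity) |>.2
    push_cast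
    nlinarith
  have h1 : ((nons (x + 1) H).card : ℝ) * l ^ (U + 1) ≤ 9 * H ^ 2 := by
    calc ((nons (x + 1) H).card : ℝ) * l ^ (U + 1)
        ≤ ((2 * H + 1) * Ds.card) * l ^ (U + 1) :=
          mul_le_mul_of_nonneg_right hfib' (by positivity)
      _ = (2 * H + 1) * (Ds.card * l ^ (U + 1)) := by ring
      _ ≤ (3 * H) * (3 * H) := by
          refine mul_le_mul (by linarith) (hDcard.trans hsq) (by positivity) (by positivity)
      _ = 9 * H ^ 2 := by ring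
  have hlog : Real.log ((x + 1 : ℕ) : ℝ) ≤ 2 * l := by
    have h2 : (2 : ℝ) ≤ x := by exact_mod_cast hx2
    rw [hldef]
    have h3 : 2 * Real.log (x : ℝ) = Real.log ((x : ℝ) ^ 2) := by rw [Real.log_pow]; norm_num
    rw [h3]
    apply Real.log_le_log
    · positivity
    · push_cast
      nlinarith
  have hlog0 : 0 ≤ Real.log ((x + 1 : ℕ) : ℝ) := by
    apply Real.log_nonneg
    push_cast
    have : (0 : ℝ) ≤ x := Nat.cast_nonneg _
    linarith
  refine le_trans ?_ (poss_card (x + 1) H hH)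
  have h2 : ((nons (x + 1) H).card : ℝ) * Real.log ((x + 1 : ℕ) : ℝ) ^ U ≤
      ((nons (x + 1) H).card : ℝ) * (2 ^ U * l ^ U) := by
    refine mul_le_mul_of_nonneg_left ?_ (Nat.cast_nonneg _)
    rw [← mul_pow]
    exact pow_le_pow_left₀ hlog0 hlog U
  refine h2.trans ?_
  have h3 : (((nons (x + 1) H).card : ℝ) * (2 ^ U * l ^ U)) * (81 * 2 ^ U) ≤
      2 ^ U * (9 * H ^ 2) := by
    calc (((nons (x + 1) H).card : ℝ) * (2 ^ U * l ^ U)) * (81 * 2 ^ U)
        ≤ (((nons (x + 1) H).card : ℝ) * (2 ^ U * l ^ U)) * l :=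
          mul_le_mul_of_nonneg_left hl (by positivity)
      _ = 2 ^ U * (((nons (x + 1) H).card : ℝ) * l ^ (U + 1)) := by rw [pow_succ]; ring
      _ ≤ 2 ^ U * (9 * H ^ 2) := mul_le_mul_of_nonneg_left h1 (by positivity)
  have h4 : (0 : ℝ) < 2 ^ U := by positivity
  have h5 : 2 ^ U * ((((nons (x + 1) H).card : ℝ) * (2 ^ U * l ^ U)) * 81) ≤
      2 ^ U * (9 * H ^ 2) := by linarith
  have h6 := le_of_mul_le_mul_left h5 h4
  linarith

/-- **Few discriminants.** -/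
theorem main_disc (A U : ℕ) : ∃ n₀ : ℕ, ∀ n : ℕ, n₀ ≤ n → ∀ X : ℕ, X ≤ n ^ A → ∀ S : Finset ℤ,
    (∀ D ∈ S, ¬ IsSquare D ∧ |D| ≤ X ∧ ∃ c : ℤ × ℤ, D = c.1 ^ 2 - 4 * c.2 ∧
      RiemannRoch n (poly2 c.1 c.2)) → (S.card : ℝ) * Real.log n ^ U ≤ √(X : ℝ) := by
  obtain ⟨x₀, hx₀⟩ := eventually_atTop.1 ((count A (U + 1)).and
    ((log_large (2 ^ U)).and (eventually_ge_atTop 2)))
  refine ⟨x₀ + 1, fun n hn X hX S hS => ?_⟩
  obtain ⟨x, rfl⟩ : ∃ x, n = x + 1 := ⟨n - 1, by omega⟩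
  obtain ⟨hcount, hl, hx2⟩ := hx₀ x (by omega)
  have h1 := hcount X hX S (by
    intro D hD
    obtain ⟨h2, h3, c, rfl, h4⟩ := hS D hD
    refine ⟨h2, ?_, fun p hp hp2 hpn => square_mod h4 p hp hp2 hpn⟩
    rw [← Int.natCast_natAbs] at h3
    exact_mod_cast h3)
  set l : ℝ := Real.log x with hldef
  have hl0 : 0 < l := lt_of_lt_of_le (by positivity) hl
  have hlog : Real.log ((x + 1 : ℕ) : ℝ) ≤ 2 * l := by
    have h2 : (2 : ℝ) ≤ x := by exact_mod_cast hx2
    rw [hldef]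
    have h3 : 2 * Real.log (x : ℝ) = Real.log ((x : ℝ) ^ 2) := by rw [Real.log_pow]; norm_num
    rw [h3]
    apply Real.log_le_log
    · positivity
    · push_cast
      nlinarith
  have hlog0 : 0 ≤ Real.log ((x + 1 : ℕ) : ℝ) := by
    apply Real.log_nonneg
    push_cast
    have : (0 : ℝ) ≤ x := Nat.cast_nonneg _
    linarith
  calc (S.card : ℝ) * Real.log ((x + 1 : ℕ) : ℝ) ^ U ≤ S.card * (2 * l) ^ U :=
        mul_le_mul_of_nonneg_left (pow_le_pow_left₀ hlog0 hlog U) (Nat.cast_nonneg _)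
    _ = S.card * l ^ U * 2 ^ U := by rw [mul_pow]; ring
    _ ≤ S.card * l ^ U * l := mul_le_mul_of_nonneg_left hl (by positivity)
    _ = S.card * l ^ (U + 1) := by rw [pow_succ]; ring
    _ ≤ _ := h1

end Pool.Agent.R503.PS
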