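import Pool.Agent.R503.W.Bvh
import Pool.Agent.R503.CR.Asy

/-!
# Primes in residue classes to small moduli
-/

set_option autoImplicit false

open Finset Filter Topology

namespace Pool.Agent.R503.PS

open Pool.Agent.R503.CR
open Pool.Agent.H442R2.KF

lemma pc_log : Tendsto (fun N : ℕ => (Nat.primeCounting N : ℝ) * Real.log N / N) atTop (𝓝 1) := by
  have := Pool.Agent.Cov.PNT.pi_tendsto.comp (tendsto_natCast_atTop_atTop (R := ℝ))
  refine this.congr fun N => ?_
  simp

lemma piN_eq (N : ℕ) : piN N = Nat.primeCounting N := by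
  unfold piN Nat.primeCounting Nat.primeCounting'
  rw [Nat.count_eq_card_filter_range]
  congr 1
  ext p
  simp only [mem_filter, mem_Icc, mem_range]
  constructor
  · rintro ⟨h1, h2⟩
    exact ⟨by omega, h2⟩
  · rintro ⟨h1, h2⟩
    exact ⟨⟨h2.one_le, by omega⟩, h2⟩

lemma half_floor (x : ℕ) : ⌊(1 / 2 : ℝ) * x⌋₊ = x / 2 := by
  rw [show (1 / 2 : ℝ) * x = (x : ℝ) / (2 : ℕ) by push_cast; ring]
  exact Nat.floor_div_eq_div x 2

lemma half_window : ∀ᶠ x : ℕ in atTop, (x : ℝ) / (4 * Real.log x) ≤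
    (piN x : ℝ) - piN (x / 2) := by
  have hk : (0 : ℝ) < 1 / 2 := by norm_num
  have h1 := pc_log
  have h0 := (pc_log.comp (floor_atTop hk)).mul ((floor_div hk).div (log_floor hk) one_ne_zero)
  have h2 := h1.sub h0
  have e1 : (1 : ℝ) - 1 * (1 / 2 / 1) = 1 / 2 := by norm_num
  rw [e1] at h2
  filter_upwards [h2.eventually (lt_mem_nhds (show (1 / 4 : ℝ) < 1 / 2 by norm_num)),
    eventually_ge_atTop 8] with x hx hx8
  simp only [Function.comp_apply, Pi.div_apply, half_floor] at hx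
  have hx1 : (1 : ℝ) < x := by
    have : (8 : ℝ) ≤ x := by exact_mod_cast hx8
    linarith
  have hh : 4 ≤ x / 2 := by omega
  have hh1 : (1 : ℝ) < ((x / 2 : ℕ) : ℝ) := by
    have : (4 : ℝ) ≤ ((x / 2 : ℕ) : ℝ) := by exact_mod_cast hh
    linarith
  have hl : 0 < Real.log x := Real.log_pos hx1
  have hl2 : 0 < Real.log ((x / 2 : ℕ) : ℝ) := Real.log_pos hh1
  rw [piN_eq, piN_eq]
  have h4 : (Nat.primeCounting x : ℝ) * Real.log x / x -
      (Nat.primeCounting (x / 2) : ℝ) * Real.log ((x / 2 : ℕ) : ℝ) / ((x / 2 : ℕ) : ℝ) *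
        (((x / 2 : ℕ) : ℝ) / x / (Real.log ((x / 2 : ℕ) : ℝ) / Real.log x)) =
      ((Nat.primeCounting x : ℝ) - Nat.primeCounting (x / 2)) * (Real.log x / x) := by
    have : ((x / 2 : ℕ) : ℝ) ≠ 0 := by linarith
    have : (x : ℝ) ≠ 0 := by linarith
    field_simp
  rw [h4] at hx
  rw [div_le_iff₀ (by positivity)]
  have h5 : (1 / 4 : ℝ) * (x / Real.log x) < ((Nat.primeCounting x : ℝ) -
      Nat.primeCounting (x / 2)) * (Real.log x / x) * (x / Real.log x) :=
    mul_lt_mul_of_pos_right hx (by positivity)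
  have h6 : ((Nat.primeCounting x : ℝ) - Nat.primeCounting (x / 2)) * (Real.log x / x) *
      (x / Real.log x) = (Nat.primeCounting x : ℝ) - Nat.primeCounting (x / 2) := by
    field_simp
  rw [h6] at h5
  have h7 : (x : ℝ) = (1 / 4 * (x / Real.log x)) * (4 * Real.log x) := by field_simp
  calc (x : ℝ) = (1 / 4 * (x / Real.log x)) * (4 * Real.log x) := h7
    _ ≤ _ := mul_le_mul_of_nonneg_right h5.le (by positivity)

/-- the primes of `(x/2, x]` in a residue class -/
def win (x q a : ℕ) : Finset ℕ := (Ioc (x / 2) x).filter fun p => p.Prime ∧ p ≡ a [MOD q]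

lemma win_card (x q a : ℕ) : ((win x q a).card : ℝ) = (piAP x q a : ℝ) - piAP (x / 2) q a := by
  have h : piAP x q a = piAP (x / 2) q a + (win x q a).card := by
    unfold piAP win
    rw [← card_union_of_disjoint]
    · congr 1
      ext p
      simp only [mem_filter, mem_union, mem_Ioc, mem_Icc]
      constructor
      · rintro ⟨h3, h4⟩
        by_cases h5 : p ≤ x / 2
        · exact Or.inl ⟨⟨h3.1, h5⟩, h4⟩
        · exact Or.inr ⟨⟨by omega, h3.2⟩, h4⟩
      · rintro (⟨h3, h4⟩ | ⟨h3, h4⟩)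
        · exact ⟨⟨h3.1, by omega⟩, h4⟩
        · exact ⟨⟨by omega, h3.2⟩, h4⟩
    · rw [disjoint_left]
      intro p hp hp'
      rw [mem_filter, mem_Icc] at hp
      rw [mem_filter, mem_Ioc] at hp'
      omega
  rw [h]
  push_cast
  ring

theorem ap_window (B : ℕ) : ∃ x₀ : ℕ, ∀ x : ℕ, x₀ ≤ x → ∀ q a : ℕ, 1 ≤ q →
    (q : ℝ) ≤ Real.log x ^ B → a.Coprime q → (x : ℝ) / Real.log x ^ (B + 2) ≤ (win x q a).card := by
  classical
  obtain ⟨C, hC, hbv⟩ := Pool.Agent.R503.W.bv_heights (1 / 4) (by norm_num) (B + 2)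
  have hlog : Tendsto (fun x : ℕ => Real.log (x : ℝ)) atTop atTop :=
    Real.tendsto_log_atTop.comp tendsto_natCast_atTop_atTop
  have h1 : ∀ᶠ x : ℕ in atTop, Real.log (x : ℝ) ^ B ≤ (x : ℝ) ^ (1 / 4 : ℝ) := by
    have h2 := isLittleO_log_rpow_rpow_atTop (B : ℝ) (show (0 : ℝ) < 1 / 4 by norm_num)
    have h3 := (h2.bound (show (0 : ℝ) < 1 by norm_num))
    have h4 := (tendsto_natCast_atTop_atTop (R := ℝ)).eventually h3
    filter_upwards [h4, eventually_ge_atTop 1] with x hx hx1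
    rw [one_mul, Real.rpow_natCast] at hx
    have h5 : (0 : ℝ) ≤ Real.log x := Real.log_nonneg (by exact_mod_cast hx1)
    rw [Real.norm_of_nonneg (by positivity), Real.norm_of_nonneg (by positivity)] at hx
    exact hx
  obtain ⟨x₀, hx₀⟩ := eventually_atTop.1 (half_window.and (h1.and
    ((hlog.eventually_ge_atTop (16 * C + 8)).and (eventually_ge_atTop 3))))
  refine ⟨x₀, fun x hx q a hq hqB haq => ?_⟩
  obtain ⟨hhalf, hB4, hl, hx3⟩ := hx₀ x hx
  set l : ℝ := Real.log x with hldef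
  have hl0 : 0 < l := by linarith
  have hx0 : (0 : ℝ) < x := by
    have : (3 : ℝ) ≤ x := by exact_mod_cast hx3
    linarith
  have hmem : q ∈ Icc 1 ⌊(x : ℝ) ^ (1 / 4 : ℝ)⌋₊ := by
    rw [mem_Icc]
    exact ⟨hq, Nat.le_floor (hqB.trans hB4)⟩
  have hone : ∀ y : ℕ, y ≤ x → |Er y q a| ≤ C * (x / l ^ (B + 2)) := by
    intro y hy
    have h2 := hbv x hx3 (fun d => if d = q then a else 1) (by
      intro d hd
      split_ifs with h
      · rw [h]; exact haq
      · exact Nat.coprime_one_left d) (fun _ => y) (fun _ => hy)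
    refine le_trans ?_ h2
    have h3 := single_le_sum (s := Icc 1 ⌊(x : ℝ) ^ (1 / 4 : ℝ)⌋₊)
      (f := fun d => |Er y d (if d = q then a else 1)|) (fun d _ => abs_nonneg _) hmem
    simpa using h3
  have e1 := neg_abs_le (Er x q a)
  have e2 := le_abs_self (Er (x / 2) q a)
  have f1 := hone x le_rfl
  have f2 := hone (x / 2) (Nat.div_le_self x 2)
  have hphi : (0 : ℝ) < Nat.totient q := by exact_mod_cast Nat.totient_pos.2 hq
  have hphi2 : (Nat.totient q : ℝ) ≤ l ^ B := by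
    have : (Nat.totient q : ℝ) ≤ q := by exact_mod_cast Nat.totient_le q
    linarith
  have g1 : (x : ℝ) / (4 * l) / l ^ B ≤ ((piN x : ℝ) - piN (x / 2)) / Nat.totient q := by
    have h3 : 0 ≤ (x : ℝ) / (4 * l) := by positivity
    calc (x : ℝ) / (4 * l) / l ^ B ≤ (x : ℝ) / (4 * l) / Nat.totient q :=
          div_le_div_of_nonneg_left h3 hphi hphi2
      _ ≤ _ := div_le_div_of_nonneg_right hhalf hphi.le
  have d1 : Er x q a = (piAP x q a : ℝ) - piN x / (Nat.totient q : ℝ) := rfl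
  have d2 : Er (x / 2) q a = (piAP (x / 2) q a : ℝ) - piN (x / 2) / (Nat.totient q : ℝ) := rfl
  rw [win_card]
  have g2 : (piAP x q a : ℝ) - piAP (x / 2) q a = ((piN x : ℝ) - piN (x / 2)) / Nat.totient q +
      Er x q a - Er (x / 2) q a := by
    rw [d1, d2]
    ring
  rw [g2]
  have g3 : (x : ℝ) / (4 * l) / l ^ B = (x / l ^ (B + 2)) * (l / 4) := by
    have : l ≠ 0 := hl0.ne'
    field_simp
    ring
  have g4 : (x / l ^ (B + 2)) * (1 + 2 * C) ≤ (x / l ^ (B + 2)) * (l / 4) :=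
    mul_le_mul_of_nonneg_left (by linarith) (by positivity)
  linarith

end Pool.Agent.R503.PS
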