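import Pool.Agent.R503.PS.Low

/-!
# Counting integers which are squares modulo all small primes
-/

set_option autoImplicit false

open Finset Filter Topology

namespace Pool.Agent.R503.PS

open Classical in
/-- the set of odd parts of the kernels -/
noncomputable def DD (x A B : ℕ) : Finset ℕ :=
  (range ((x + 1) ^ A + 1)).filter fun d => Odd d ∧ Squarefree d ∧ Few x (2 * A) d ∧
    Real.log x ^ B < d

lemma PP_card : ∀ᶠ x : ℕ in atTop, (x : ℝ) / Real.log x ^ 3 ≤ (PP x).card := by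
  obtain ⟨x₀, hx₀⟩ := ap_window 1
  filter_upwards [eventually_ge_atTop x₀, log_large 8] with x hx hl
  exact hx₀ x hx 8 1 (by norm_num) (by rw [pow_one]; exact_mod_cast hl) (by norm_num)

lemma choose_lower {N k : ℕ} (hk : 1 ≤ k) (hN : 2 * k ≤ N) :
    ((N : ℝ) / 2) ^ k / k.factorial ≤ N.choose k := by
  refine le_trans ?_ (Nat.pow_le_choose (α := ℝ) k N)
  refine div_le_div_of_nonneg_right ?_ (by positivity)
  have h1 : (N : ℝ) / 2 ≤ ((N + 1 - k : ℕ) : ℝ) := by
    have h2 : N ≤ 2 * (N + 1 - k) := by omega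
    have h3 : (N : ℝ) ≤ 2 * ((N + 1 - k : ℕ) : ℝ) := by exact_mod_cast h2
    linarith
  exact pow_le_pow_left₀ (by positivity) h1 k

theorem DD_card (A B : ℕ) : ∀ᶠ x : ℕ in atTop,
    ((DD x A B).card : ℝ) ≤ Real.log x ^ (3 * (2 * A + 1) + 1) := by
  classical
  set k : ℕ := 2 * A + 1 with hk
  set M : ℝ := 16 * k.factorial * 2 ^ k with hM
  filter_upwards [PP_card, log_pow_small 3 (4 * (2 * A) * k + 2 * k + 1),
    log_pow_small (3 * k) (8 * 4 ^ A * k.factorial * 2 ^ k), log_large (M + 1),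
    eventually_ge_atTop 2] with x hPP hl3 hlk hlM hx2
  have hk1 : 1 ≤ k := by omega
  have hM0 : 0 < M := by positivity
  have hl0 : 0 < Real.log (x : ℝ) := by linarith
  have hx0 : (0 : ℝ) < x := by
    have : (2 : ℝ) ≤ x := by exact_mod_cast hx2
    linarith
  set l : ℝ := Real.log x with hl
  set N : ℕ := (PP x).card with hN
  have hNbig : ((4 * (2 * A) * k + 2 * k + 1 : ℕ) : ℝ) ≤ N := by
    refine le_trans ?_ hPP
    rw [le_div_iff₀ (by positivity)]
    push_cast
    exact hl3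
  have hNbig' : 4 * (2 * A) * k + 2 * k + 1 ≤ N := by exact_mod_cast hNbig
  have hch := choose_lower hk1 (show 2 * k ≤ N by omega)
  have hch2 : (x : ℝ) ^ k / (l ^ (3 * k) * 2 ^ k * k.factorial) ≤ N.choose k := by
    refine le_trans ?_ hch
    have h1 : (x : ℝ) ^ k / (l ^ (3 * k) * 2 ^ k * k.factorial) =
        ((x : ℝ) / l ^ 3 / 2) ^ k / k.factorial := by
      rw [div_pow, div_pow, pow_mul]
      field_simp
    rw [h1]
    refine div_le_div_of_nonneg_right ?_ (by positivity)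
    refine pow_le_pow_left₀ (by positivity) ?_ k
    exact div_le_div_of_nonneg_right hPP (by norm_num)
  have hY : 8 * ((x + 1) ^ A) ^ 2 ≤ N.choose k := by
    have h1 : (8 * ((x + 1) ^ A) ^ 2 : ℝ) ≤ N.choose k := by
      refine le_trans ?_ hch2
      rw [le_div_iff₀ (by positivity)]
      have h2 : ((x : ℝ) + 1) ^ (2 * A) ≤ 4 ^ A * x ^ (2 * A) := by
        have h3 : ((x : ℝ) + 1) ≤ 2 * x := by
          have : (2 : ℝ) ≤ x := by exact_mod_cast hx2
          linarith
        calc ((x : ℝ) + 1) ^ (2 * A) ≤ (2 * x) ^ (2 * A) := pow_le_pow_left₀ (by positivity) h3 _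
          _ = 4 ^ A * x ^ (2 * A) := by rw [mul_pow, pow_mul]; norm_num
      calc 8 * (((x : ℝ) + 1) ^ A) ^ 2 * (l ^ (3 * k) * 2 ^ k * k.factorial)
          = 8 * ((x : ℝ) + 1) ^ (2 * A) * (l ^ (3 * k) * 2 ^ k * k.factorial) := by
            rw [← pow_mul, mul_comm A 2]
        _ ≤ 8 * (4 ^ A * x ^ (2 * A)) * (l ^ (3 * k) * 2 ^ k * k.factorial) := by gcongr
        _ = (8 * 4 ^ A * k.factorial * 2 ^ k * l ^ (3 * k)) * x ^ (2 * A) := by ring
        _ ≤ x * x ^ (2 * A) := mul_le_mul_of_nonneg_right hlk (by positivity)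
        _ = x ^ k := by rw [hk]; ring
    exact_mod_cast h1
  have hfew := few_card (x := x) (k := k) (b := 2 * A) (Y := (x + 1) ^ A) (by omega) hk1
    (by omega) (by omega) hY (DD x A B) (by
      intro d hd
      unfold DD at hd
      rw [mem_filter, mem_range] at hd
      exact ⟨hd.2.1, hd.2.2.1, by omega, hd.2.2.2.1⟩)
  have hfew' : ((DD x A B).card : ℝ) * N.choose k ≤ 16 * (x : ℝ) ^ k := by exact_mod_cast hfew
  have h1 : ((DD x A B).card : ℝ) * ((x : ℝ) ^ k / (l ^ (3 * k) * 2 ^ k * k.factorial)) ≤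
      16 * (x : ℝ) ^ k := (mul_le_mul_of_nonneg_left hch2 (Nat.cast_nonneg _)).trans hfew'
  rw [mul_div_assoc', div_le_iff₀ (by positivity)] at h1
  have h2 : ((DD x A B).card : ℝ) * (x : ℝ) ^ k ≤ (M * l ^ (3 * k)) * (x : ℝ) ^ k := by
    rw [hM]
    linarith
  have h3 := le_of_mul_le_mul_right h2 (by positivity)
  refine h3.trans ?_
  rw [pow_succ, mul_comm]
  exact mul_le_mul_of_nonneg_left (by linarith) (by positivity)

/-- **Counting.** -/
theorem count (A U : ℕ) : ∀ᶠ x : ℕ in atTop, ∀ X : ℕ, X ≤ (x + 1) ^ A → ∀ S : Finset ℤ,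
    (∀ D ∈ S, ¬ IsSquare D ∧ D.natAbs ≤ X ∧ Sq (x + 1) D) →
      (S.card : ℝ) * Real.log x ^ U ≤ √(X : ℝ) := by
  classical
  set K : ℕ := 3 * (2 * A + 1) + 1 with hK
  set B : ℕ := K + U + 1 with hB
  filter_upwards [DD_card A (2 * B), struct A (2 * B), log_large 4] with x hDD hst hl4 X hX S hS
  set l : ℝ := Real.log x with hl
  have hl0 : 0 < l := by linarith
  set F : ℕ := ⌊√(X : ℝ) / l ^ B⌋₊ with hF
  set Us : Finset ℤ := {1, -1, 2, -2} with hUs
  have hsub : S ⊆ ((Us ×ˢ DD x A (2 * B)) ×ˢ Icc 1 F).image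
      fun t => t.1.1 * (t.1.2 : ℤ) * (t.2 : ℤ) ^ 2 := by
    intro D hD
    obtain ⟨h1, h2, h3⟩ := hS D hD
    obtain ⟨u, d, f, hu, hDe, hodd, hsq, hf, hfew, hdl⟩ := hst D h1 (h2.trans hX) h3
    have hd0 : 0 < d := by
      rcases Nat.eq_zero_or_pos d with h | h
      · rw [h] at hodd
        exact absurd hodd (by decide)
      · exact h
    have hu1 : 1 ≤ u.natAbs := by
      rcases hu with rfl | rfl | rfl | rfl <;> decide
    have habs : D.natAbs = u.natAbs * d * f ^ 2 := by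
      rw [hDe, Int.natAbs_mul, Int.natAbs_mul, Int.natAbs_pow, Int.natAbs_natCast,
        Int.natAbs_natCast]
    have hle : d * f ^ 2 ≤ X := by
      have h4 : d * f ^ 2 ≤ D.natAbs := by
        rw [habs, mul_assoc]
        exact Nat.le_mul_of_pos_left _ hu1
      omega
    rw [mem_image]
    refine ⟨((u, d), f), ?_, hDe.symm⟩
    rw [mem_product, mem_product]
    refine ⟨⟨?_, ?_⟩, ?_⟩
    · rw [hUs]
      simp only [mem_insert, mem_singleton]
      exact hu
    · unfold DD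
      rw [mem_filter, mem_range]
      refine ⟨?_, hodd, hsq, hfew, hdl⟩
      have h4 : d ≤ d * f ^ 2 := Nat.le_mul_of_pos_right _ (by positivity)
      have h5 := (h4.trans hle).trans hX
      exact Nat.lt_succ_of_le h5
    · rw [mem_Icc]
      refine ⟨hf, Nat.le_floor ?_⟩
      rw [le_div_iff₀ (by positivity)]
      apply Real.le_sqrt_of_sq_le
      have h4 : ((d * f ^ 2 : ℕ) : ℝ) ≤ X := by exact_mod_cast hle
      push_cast at h4
      calc (((f : ℕ) : ℝ) * l ^ B) ^ 2 = l ^ (2 * B) * (f : ℝ) ^ 2 := by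
            rw [mul_pow, ← pow_mul, mul_comm B 2, mul_comm]
        _ ≤ (d : ℝ) * (f : ℝ) ^ 2 := mul_le_mul_of_nonneg_right hdl.le (by positivity)
        _ ≤ (X : ℝ) := h4
  have hcard := (card_le_card hsub).trans card_image_le
  rw [card_product, card_product, Nat.card_Icc, Nat.add_sub_cancel] at hcard
  have hU4 : Us.card ≤ 4 := by
    rw [hUs]
    decide
  have h1 : (S.card : ℝ) ≤ 4 * (DD x A (2 * B)).card * F := by
    have : S.card ≤ 4 * (DD x A (2 * B)).card * F :=
      hcard.trans (Nat.mul_le_mul_right _ (Nat.mul_le_mul_right _ hU4))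
    exact_mod_cast this
  have h2 : (F : ℝ) ≤ √(X : ℝ) / l ^ B := Nat.floor_le (by positivity)
  have h3 : (S.card : ℝ) ≤ 4 * l ^ K * (√(X : ℝ) / l ^ B) := by
    refine h1.trans ?_
    exact mul_le_mul (mul_le_mul_of_nonneg_left hDD (by norm_num)) h2 (Nat.cast_nonneg _)
      (by positivity)
  have h4 : 4 * l ^ K * (√(X : ℝ) / l ^ B) * l ^ U = √(X : ℝ) * (4 / l) := by
    have e1 : l ^ B = l ^ K * l ^ U * l := by rw [hB, pow_succ, pow_add]
    rw [e1]
    field_simp
  calc (S.card : ℝ) * l ^ U ≤ 4 * l ^ K * (√(X : ℝ) / l ^ B) * l ^ U :=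
        mul_le_mul_of_nonneg_right h3 (by positivity)
    _ = √(X : ℝ) * (4 / l) := h4
    _ ≤ √(X : ℝ) * 1 := by
        refine mul_le_mul_of_nonneg_left ?_ (Real.sqrt_nonneg _)
        rw [div_le_one hl0]
        exact hl4
    _ = √(X : ℝ) := mul_one _

end Pool.Agent.R503.PS
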