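import Pool.Agent.R503.PS.Sieve

/-!
# The structure of integers which are squares modulo all small primes
-/

set_option autoImplicit false

open Finset Filter Topology

namespace Pool.Agent.R503.PS

lemma log_pow_small (K : ℕ) (c : ℝ) : ∀ᶠ x : ℕ in atTop, c * Real.log x ^ K ≤ x := by
  have h1 := (Real.isLittleO_pow_log_id_atTop (n := K)).def
    (show (0 : ℝ) < 1 / (|c| + 1) by positivity)
  have h2 := (tendsto_natCast_atTop_atTop (R := ℝ)).eventually h1
  filter_upwards [h2, eventually_ge_atTop 1] with x hx hx1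
  have h5 : (0 : ℝ) ≤ Real.log x := Real.log_nonneg (by exact_mod_cast hx1)
  rw [Real.norm_of_nonneg (by positivity), id, Real.norm_of_nonneg (by positivity),
    one_div, inv_mul_eq_div, le_div_iff₀ (by positivity)] at hx
  have h6 : c ≤ |c| + 1 := by have := le_abs_self c; linarith
  calc c * Real.log x ^ K ≤ (|c| + 1) * Real.log x ^ K :=
        mul_le_mul_of_nonneg_right h6 (by positivity)
    _ ≤ x := by rw [mul_comm]; exact hx

lemma log_large (c : ℝ) : ∀ᶠ x : ℕ in atTop, c ≤ Real.log x :=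
  (Real.tendsto_log_atTop.comp tendsto_natCast_atTop_atTop).eventually_ge_atTop c

/-- many primes in a residue class -/
lemma win_large (B b : ℕ) : ∀ᶠ x : ℕ in atTop, ∀ q a : ℕ, 1 ≤ q →
    (q : ℝ) ≤ Real.log x ^ B → a.Coprime q → b < (win x q a).card := by
  obtain ⟨x₀, hx₀⟩ := ap_window B
  filter_upwards [eventually_ge_atTop x₀, log_pow_small (B + 2) (b + 1), log_large 1,
    eventually_ge_atTop 1] with x hx h1 h2 h3 q a hq hqB hqa
  have h4 := hx₀ x hx q a hq hqB hqa
  have hl : 0 < Real.log x ^ (B + 2) := by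
    have : 0 < Real.log (x : ℝ) := by linarith
    positivity
  have h5 : ((b : ℝ) + 1) ≤ x / Real.log x ^ (B + 2) := by
    rw [le_div_iff₀ hl]
    exact h1
  have h6 : (b : ℝ) + 1 ≤ (win x q a).card := h5.trans h4
  have h7 : b + 1 ≤ (win x q a).card := by exact_mod_cast h6
  omega

theorem small_d (b B : ℕ) : ∀ᶠ x : ℕ in atTop, ∀ d : ℕ, Odd d → Squarefree d → 1 < d →
    (d : ℝ) ≤ Real.log x ^ B → ¬ Few x b d := by
  filter_upwards [win_large (B + 1) b, log_large 8] with x hx hl d hodd hsq hd hdB hfew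
  set p := d.minFac with hp
  have hpp : p.Prime := Nat.minFac_prime (by omega)
  obtain ⟨r, hr⟩ := Nat.minFac_dvd d
  have hcop : Nat.Coprime p r := Nat.coprime_of_squarefree_mul (hr ▸ hsq)
  obtain ⟨a, ha, hja⟩ := Pool.Agent.H591R2.exists_jacobi_neg_one hodd hpp hr hcop
  have hd8 : Nat.Coprime d 8 := by
    have : Nat.Coprime d 2 := Nat.coprime_two_right.2 hodd
    exact Nat.Coprime.pow_right 3 this
  obtain ⟨c, hc1, hc2⟩ := Nat.chineseRemainder hd8 a 1
  have hcd : Nat.Coprime c d := by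
    rw [Nat.Coprime, hc1.gcd_eq]
    exact ha
  have hc8 : Nat.Coprime c 8 := by
    rw [Nat.Coprime, hc2.gcd_eq]
    norm_num
  have hcop' : Nat.Coprime c (8 * d) := Nat.Coprime.mul_right hc8 hcd
  have hq : ((8 * d : ℕ) : ℝ) ≤ Real.log x ^ (B + 1) := by
    push_cast
    calc (8 : ℝ) * d ≤ Real.log x * Real.log x ^ B :=
          mul_le_mul hl hdB (Nat.cast_nonneg _) (by linarith)
      _ = Real.log x ^ (B + 1) := by ring
  have h1 := hx (8 * d) c (by omega) hq hcop'
  have h2 : win x (8 * d) c ⊆ (PP x).filter fun p : ℕ => jacobiSym (p : ℤ) d ≠ 1 := by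
    intro q hq
    unfold win at hq
    rw [mem_filter, mem_Ioc] at hq
    have e8 : q ≡ 1 [MOD 8] := (Nat.ModEq.of_mul_right d hq.2.2).trans hc2
    have ed : q ≡ a [MOD d] := (Nat.ModEq.of_mul_left 8 hq.2.2).trans hc1
    rw [mem_filter, mem_PP]
    refine ⟨⟨hq.1, hq.2.1, e8⟩, ?_⟩
    have h3 : jacobiSym (q : ℤ) d = jacobiSym (a : ℤ) d := by
      apply jacobiSym.mod_left'
      exact_mod_cast ed
    rw [h3, hja]
    norm_num
  have h3 := card_le_card h2
  unfold Few at hfew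
  omega

/-- the primes of `(x/2, x]` with the symbol `-1` -/
noncomputable def neg (x : ℕ) (u : ℤ) : Finset ℕ :=
  (Ioc (x / 2) x).filter fun p : ℕ => p.Prime ∧ jacobiSym u p = -1

theorem unit_window (b : ℕ) : ∀ᶠ x : ℕ in atTop, ∀ u : ℤ, (u = -1 ∨ u = 2 ∨ u = -2) →
    b < (neg x u).card := by
  filter_upwards [win_large 1 b, log_large 8] with x hx hl u hu
  have h8 : ((8 : ℕ) : ℝ) ≤ Real.log x ^ 1 := by rw [pow_one]; exact_mod_cast hl
  have h3 := hx 8 3 (by norm_num) h8 (by norm_num)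
  have h5 := hx 8 5 (by norm_num) h8 (by norm_num)
  have hodd : ∀ p a : ℕ, p ≡ a [MOD 8] → a % 2 = 1 → Odd p := by
    intro p a hp ha
    rw [Nat.odd_iff]
    unfold Nat.ModEq at hp
    omega
  rcases hu with rfl | rfl | rfl
  · refine h3.trans_le (card_le_card fun p hp => ?_)
    unfold win at hp
    rw [mem_filter] at hp
    unfold neg
    rw [mem_filter]
    refine ⟨hp.1, hp.2.1, ?_⟩
    rw [jacobiSym.at_neg_one (hodd p 3 hp.2.2 (by norm_num))]
    apply ZMod.χ₄_nat_three_mod_four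
    have := hp.2.2
    unfold Nat.ModEq at this
    omega
  · refine h3.trans_le (card_le_card fun p hp => ?_)
    unfold win at hp
    rw [mem_filter] at hp
    unfold neg
    rw [mem_filter]
    refine ⟨hp.1, hp.2.1, ?_⟩
    rw [jacobiSym.at_two (hodd p 3 hp.2.2 (by norm_num)), ZMod.χ₈_nat_eq_if_mod_eight]
    have := hp.2.2
    unfold Nat.ModEq at this
    rw [if_neg (by omega), if_neg (by omega)]
  · refine h5.trans_le (card_le_card fun p hp => ?_)
    unfold win at hp
    rw [mem_filter] at hp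
    unfold neg
    rw [mem_filter]
    refine ⟨hp.1, hp.2.1, ?_⟩
    rw [jacobiSym.at_neg_two (hodd p 5 hp.2.2 (by norm_num)), ZMod.χ₈'_nat_eq_if_mod_eight]
    have := hp.2.2
    unfold Nat.ModEq at this
    rw [if_neg (by omega), if_neg (by omega)]

/-- square modulo the odd primes less than `n` -/
def Sq (n : ℕ) (D : ℤ) : Prop := ∀ p : ℕ, p.Prime → p ≠ 2 → p < n → ∃ t : ℤ, (p : ℤ) ∣ D - t ^ 2

lemma jac_D {p : ℕ} (hp : p.Prime) {D t : ℤ} (hD : ¬ (p : ℤ) ∣ D) (ht : (p : ℤ) ∣ D - t ^ 2) :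
    jacobiSym D p = 1 := by
  have hpi := Nat.prime_iff_prime_int.1 hp
  have h1 : jacobiSym D p = jacobiSym (t ^ 2) p := by
    apply jacobiSym.mod_left'
    exact Int.emod_eq_emod_iff_emod_sub_eq_zero.2 (Int.emod_eq_zero_of_dvd ht)
  rw [h1]
  apply jacobiSym.sq_one'
  have h2 : ¬ (p : ℤ) ∣ t := by
    intro h
    apply hD
    have h3 : (p : ℤ) ∣ t ^ 2 := dvd_pow h two_ne_zero
    have := dvd_add ht h3
    simpa using this
  rw [Int.gcd_comm]
  exact (Int.isCoprime_iff_gcd_eq_one.1 (hpi.irreducible.coprime_iff_not_dvd.2 h2))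

lemma dvd_card {n A : ℕ} (hn : 2 ≤ n) (T : Finset ℕ) (hT : ∀ p ∈ T, p.Prime ∧ n ≤ p ^ 2) {D : ℤ}
    (hD0 : D ≠ 0) (hD : D.natAbs ≤ n ^ A) (hdiv : ∀ p ∈ T, (p : ℤ) ∣ D) : T.card ≤ 2 * A := by
  have h1 : (∏ p ∈ T, p) ∣ D.natAbs := by
    apply Finset.prod_primes_dvd
    · intro p hp
      exact (hT p hp).1.prime
    · intro p hp
      exact Int.natCast_dvd.1 (hdiv p hp)
  have h2 : ∏ p ∈ T, p ≤ n ^ A := (Nat.le_of_dvd (Int.natAbs_pos.2 hD0) h1).trans hD
  have h3 : n ^ T.card ≤ n ^ (2 * A) := by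
    calc n ^ T.card = ∏ _p ∈ T, n := by rw [prod_const]
      _ ≤ ∏ p ∈ T, p ^ 2 := prod_le_prod' fun p hp => (hT p hp).2
      _ = (∏ p ∈ T, p) ^ 2 := by rw [prod_pow]
      _ ≤ (n ^ A) ^ 2 := Nat.pow_le_pow_left h2 2
      _ = n ^ (2 * A) := by rw [← pow_mul, mul_comm]
  exact (Nat.pow_le_pow_iff_right (by omega)).1 h3

lemma decompose (D : ℤ) (hD : D ≠ 0) : ∃ (u : ℤ) (d f : ℕ), (u = 1 ∨ u = -1 ∨ u = 2 ∨ u = -2) ∧
    D = u * d * (f : ℤ) ^ 2 ∧ Odd d ∧ Squarefree d ∧ 0 < f := by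
  obtain ⟨a, b, ha, hb, hab, hsq⟩ := Nat.sq_mul_squarefree_of_pos (Int.natAbs_pos.2 hD)
  have hs : D = D.natAbs ∨ D = -D.natAbs := Int.natAbs_eq D
  rcases Nat.even_or_odd a with he | ho
  · obtain ⟨d, hd⟩ := he
    have hd2 : a = 2 * d := by omega
    have hcop : Nat.Coprime 2 d := Nat.coprime_of_squarefree_mul (hd2 ▸ hsq)
    have hodd : Odd d := Nat.coprime_two_left.1 hcop
    have hsd : Squarefree d := Squarefree.squarefree_of_dvd ⟨2, by rw [hd2, mul_comm]⟩ hsq
    rcases hs with h | h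
    · refine ⟨2, d, b, by tauto, ?_, hodd, hsd, hb⟩
      rw [h, ← hab, hd2]
      push_cast
      ring
    · refine ⟨-2, d, b, by tauto, ?_, hodd, hsd, hb⟩
      rw [h, ← hab, hd2]
      push_cast
      ring
  · rcases hs with h | h
    · refine ⟨1, a, b, by tauto, ?_, ho, hsq, hb⟩
      rw [h, ← hab]
      push_cast
      ring
    · refine ⟨-1, a, b, by tauto, ?_, ho, hsq, hb⟩
      rw [h, ← hab]
      push_cast
      ring

theorem struct (A B : ℕ) : ∀ᶠ x : ℕ in atTop, ∀ D : ℤ, ¬ IsSquare D → D.natAbs ≤ (x + 1) ^ A →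
    Sq (x + 1) D → ∃ (u : ℤ) (d f : ℕ), (u = 1 ∨ u = -1 ∨ u = 2 ∨ u = -2) ∧
      D = u * d * (f : ℤ) ^ 2 ∧ Odd d ∧ Squarefree d ∧ 0 < f ∧ Few x (2 * A) d ∧
      Real.log x ^ B < d := by
  filter_upwards [small_d (2 * A) B, unit_window (2 * A), eventually_ge_atTop 4] with x hsd hun hx4
    D hD hDA hS
  have hD0 : D ≠ 0 := by
    rintro rfl
    exact hD ⟨0, by norm_num⟩
  obtain ⟨u, d, f, hu, hDe, hodd, hsq, hf⟩ := decompose D hD0
  have hp2 : ∀ p : ℕ, p ∈ Ioc (x / 2) x → x + 1 ≤ p ^ 2 := by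
    intro p hp
    rw [mem_Ioc] at hp
    have h1 : x + 1 ≤ 2 * p := by omega
    have h2 : 2 ≤ p := by omega
    nlinarith
  -- the value of the symbol at a prime not dividing `D`
  have hval : ∀ p : ℕ, p.Prime → p ≠ 2 → p < x + 1 → ¬ (p : ℤ) ∣ D →
      jacobiSym u p * jacobiSym d p = 1 := by
    intro p hp hp2' hpx hpD
    obtain ⟨t, ht⟩ := hS p hp hp2' hpx
    have h1 := jac_D hp hpD ht
    rw [hDe, jacobiSym.mul_left, jacobiSym.mul_left] at h1
    have h2 : jacobiSym ((f : ℤ) ^ 2) p = 1 := by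
      apply jacobiSym.sq_one'
      have h3 : ¬ (p : ℤ) ∣ (f : ℤ) := by
        intro h
        apply hpD
        rw [hDe]
        exact dvd_mul_of_dvd_right (dvd_pow h two_ne_zero) _
      rw [Int.gcd_comm]
      exact (Int.isCoprime_iff_gcd_eq_one.1
        ((Nat.prime_iff_prime_int.1 hp).irreducible.coprime_iff_not_dvd.2 h3))
    rw [h2, mul_one] at h1
    exact h1
  have hfew : Few x (2 * A) d := by
    unfold Few
    refine dvd_card (n := x + 1) (by omega) _ ?_ hD0 hDA ?_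
    · intro p hp
      rw [mem_filter, mem_PP] at hp
      exact ⟨hp.1.2.1, hp2 p (mem_Ioc.2 hp.1.1)⟩
    · intro p hp
      rw [mem_filter, mem_PP] at hp
      by_contra hpD
      apply hp.2
      have hp2' : p ≠ 2 := by
        rintro rfl
        have := hp.1.2.2
        omega
      have hpodd : Odd p := hp.1.2.1.odd_of_ne_two hp2'
      have h1 := hval p hp.1.2.1 hp2' (by omega) hpD
      have h8 := hp.1.2.2
      have hju : jacobiSym u p = 1 := by
        rcases hu with rfl | rfl | rfl | rfl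
        · exact jacobiSym.one_left p
        · rw [jacobiSym.at_neg_one hpodd]
          exact ZMod.χ₄_nat_one_mod_four (by omega)
        · rw [jacobiSym.at_two hpodd, ZMod.χ₈_nat_eq_if_mod_eight, if_neg (by omega),
            if_pos (by omega)]
        · rw [jacobiSym.at_neg_two hpodd, ZMod.χ₈'_nat_eq_if_mod_eight, if_neg (by omega),
            if_pos (by omega)]
      rw [hju, one_mul] at h1
      rw [← jacobiSym.quadratic_reciprocity_one_mod_four' hodd (by omega : p % 4 = 1)]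
      exact h1
  refine ⟨u, d, f, hu, hDe, hodd, hsq, hf, hfew, ?_⟩
  by_contra hle
  rw [not_lt] at hle
  have hd0 : d ≠ 0 := by
    rintro rfl
    exact (Nat.not_odd_iff_even.2 (by decide : Even 0)) hodd
  rcases Nat.lt_or_ge 1 d with h1 | h1
  · exact hsd d hodd hsq h1 hle hfew
  have hd1 : d = 1 := by omega
  have hu1 : u ≠ 1 := by
    rintro rfl
    apply hD
    refine ⟨f, ?_⟩
    rw [hDe, hd1]
    push_cast
    ring
  have hu' : u = -1 ∨ u = 2 ∨ u = -2 := by tauto
  have h2 := hun u hu'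
  have h3 : (neg x u).card ≤ 2 * A := by
    refine dvd_card (n := x + 1) (by omega) _ ?_ hD0 hDA ?_
    · intro p hp
      unfold neg at hp
      rw [mem_filter] at hp
      exact ⟨hp.2.1, hp2 p hp.1⟩
    · intro p hp
      unfold neg at hp
      rw [mem_filter] at hp
      by_contra hpD
      have hpx := mem_Ioc.1 hp.1
      have hp2' : p ≠ 2 := by
        intro h
        have : 2 ≤ x / 2 := by omega
        omega
      have h4 := hval p hp.2.1 hp2' (by omega) hpD
      rw [hp.2.2, hd1] at h4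
      rw [Nat.cast_one, jacobiSym.one_left] at h4
      norm_num at h4
  omega

end Pool.Agent.R503.PS
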