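import Pool.Agent.R503.PS.Ap
import Pool.Agent.H591R2.Char

/-!
# Few moduli for which almost all primes are quadratic residues
-/

set_option autoImplicit false

open Finset Filter Topology

namespace Pool.Agent.R503.PS

/-- the primes `≡ 1 (mod 8)` of `(x/2, x]` -/
def PP (x : ℕ) : Finset ℕ := win x 8 1

lemma mem_PP {x p : ℕ} : p ∈ PP x ↔ (x / 2 < p ∧ p ≤ x) ∧ p.Prime ∧ p % 8 = 1 := by
  unfold PP win
  rw [mem_filter, mem_Ioc]
  rfl

/-- at most `b` exceptional primes -/
def Few (x b d : ℕ) : Prop := ((PP x).filter fun p : ℕ => jacobiSym (p : ℤ) d ≠ 1).card ≤ b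

lemma choose_loss (N k b : ℕ) (hk : 1 ≤ k) (hb : b ≤ N) :
    N.choose k ≤ (N - b).choose k + b * (N - 1).choose (k - 1) := by
  induction b with
  | zero => simp
  | succ b ih =>
    have h1 := ih (by omega)
    have h2 : (N - b).choose k = (N - (b + 1)).choose (k - 1) + (N - (b + 1)).choose k := by
      obtain ⟨k', rfl⟩ : ∃ k', k = k' + 1 := ⟨k - 1, by omega⟩
      have h3 : N - b = (N - (b + 1)) + 1 := by omega
      rw [h3, Nat.choose_succ_succ]
      rfl
    have h4 : (N - (b + 1)).choose (k - 1) ≤ (N - 1).choose (k - 1) :=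
      Nat.choose_le_choose _ (by omega)
    rw [h2] at h1
    calc N.choose k ≤ _ := h1
      _ ≤ (N - (b + 1)).choose k + (b + 1) * (N - 1).choose (k - 1) := by
        rw [add_mul, one_mul]
        omega

lemma choose_ratio (N k b : ℕ) (hk : 1 ≤ k) (hN : 4 * b * k ≤ N) (hN0 : 1 ≤ N) :
    3 * N.choose k ≤ 4 * (N - b).choose k := by
  have hb : b ≤ N := by nlinarith
  have h1 := choose_loss N k b hk hb
  have h2 : N * (N - 1).choose (k - 1) = k * N.choose k := by
    obtain ⟨k', rfl⟩ : ∃ k', k = k' + 1 := ⟨k - 1, by omega⟩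
    obtain ⟨N', rfl⟩ : ∃ N', N = N' + 1 := ⟨N - 1, by omega⟩
    have := Nat.add_one_mul_choose_eq N' k'
    simp only [Nat.add_sub_cancel]
    rw [this, mul_comm]
  have h3 : N * N.choose k ≤ N * (N - b).choose k + b * (k * N.choose k) := by
    calc N * N.choose k ≤ N * ((N - b).choose k + b * (N - 1).choose (k - 1)) :=
          Nat.mul_le_mul_left _ h1
      _ = N * (N - b).choose k + b * (N * (N - 1).choose (k - 1)) := by ring
      _ = _ := by rw [h2]
  have h4 : 4 * (b * (k * N.choose k)) ≤ N * N.choose k := by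
    calc 4 * (b * (k * N.choose k)) = (4 * b * k) * N.choose k := by ring
      _ ≤ _ := Nat.mul_le_mul_right _ hN
  have h5 : N * (3 * N.choose k) ≤ N * (4 * (N - b).choose k) := by
    nlinarith
  exact Nat.le_of_mul_le_mul_left h5 hN0

lemma jacobi_prod (T : Finset ℕ) (d : ℕ) :
    jacobiSym ((∏ p ∈ T, p : ℕ) : ℤ) d = ∏ p ∈ T, jacobiSym (p : ℤ) d := by
  classical
  induction T using Finset.induction_on with
  | empty => simp [jacobiSym.one_left]
  | insert a s ha ih =>
    rw [prod_insert ha, prod_insert ha]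
    push_cast
    rw [jacobiSym.mul_left]
    push_cast at ih
    rw [ih]

lemma abs_jacobi_prod (T : Finset ℕ) (d : ℕ) : |∏ p ∈ T, jacobiSym (p : ℤ) d| ≤ 1 := by
  rw [abs_prod]
  refine prod_le_one (fun p _ => abs_nonneg _) fun p _ => ?_
  rcases jacobiSym.trichotomy (p : ℤ) d with h | h | h <;> rw [h] <;> norm_num

/-- products of `k` primes -/
def PK (x k : ℕ) : Finset ℕ := (powersetCard k (PP x)).image fun T => ∏ p ∈ T, p

lemma prod_inj {x k : ℕ} : Set.InjOn (fun T : Finset ℕ => ∏ p ∈ T, p)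
    (powersetCard k (PP x) : Set (Finset ℕ)) := by
  intro T hT T' hT' h
  rw [mem_coe, mem_powersetCard] at hT hT'
  have h1 : ∀ S : Finset ℕ, S ⊆ PP x → (∏ p ∈ S, p).primeFactors = S := by
    intro S hS
    exact Nat.primeFactors_prod fun p hp => (mem_PP.1 (hS hp)).2.1
  rw [← h1 T hT.1, ← h1 T' hT'.1]
  exact congrArg Nat.primeFactors h

lemma card_PK (x k : ℕ) : (PK x k).card = (PP x).card.choose k := by
  unfold PK
  rw [card_image_of_injOn prod_inj, card_powersetCard]

lemma lower {x k b d : ℕ} (hk : 1 ≤ k) (hN : 4 * b * k ≤ (PP x).card) (hN0 : 1 ≤ (PP x).card)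
    (hf : Few x b d) : ((PP x).card.choose k : ℤ) ≤ 2 * ∑ q ∈ PK x k, jacobiSym q d := by
  classical
  set N := (PP x).card with hNdef
  set G : Finset ℕ := (PP x).filter fun p : ℕ => jacobiSym (p : ℤ) d = 1 with hG
  have hGcard : N - b ≤ G.card := by
    have h1 := card_filter_add_card_filter_not (s := PP x) (fun p : ℕ => jacobiSym (p : ℤ) d = 1)
    unfold Few at hf
    have h2 : G.card + ((PP x).filter fun p : ℕ => jacobiSym (p : ℤ) d ≠ 1).card = N := h1
    omega
  have h1 : ∑ q ∈ PK x k, jacobiSym q d =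
      ∑ T ∈ powersetCard k (PP x), ∏ p ∈ T, jacobiSym (p : ℤ) d := by
    unfold PK
    rw [sum_image prod_inj]
    exact sum_congr rfl fun T _ => jacobi_prod T d
  have hsub : powersetCard k G ⊆ powersetCard k (PP x) :=
    powersetCard_mono (filter_subset _ _)
  have h2 : ∑ T ∈ powersetCard k G, ∏ p ∈ T, jacobiSym (p : ℤ) d = G.card.choose k := by
    have h3 : ∀ T ∈ powersetCard k G, ∏ p ∈ T, jacobiSym (p : ℤ) d = 1 := by
      intro T hT
      rw [mem_powersetCard] at hT
      exact prod_eq_one fun p hp => (mem_filter.1 (hT.1 hp)).2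
    rw [sum_congr rfl h3, sum_const, card_powersetCard]
    simp
  have h3 : -(((powersetCard k (PP x) \ powersetCard k G).card : ℕ) : ℤ) ≤
      ∑ T ∈ powersetCard k (PP x) \ powersetCard k G, ∏ p ∈ T, jacobiSym (p : ℤ) d := by
    have h4 : ∑ _T ∈ powersetCard k (PP x) \ powersetCard k G, (-1 : ℤ) ≤
        ∑ T ∈ powersetCard k (PP x) \ powersetCard k G, ∏ p ∈ T, jacobiSym (p : ℤ) d :=
      sum_le_sum fun T _ => (abs_le.1 (abs_jacobi_prod T d)).1
    rw [sum_const] at h4
    simpa using h4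
  have h4 : (powersetCard k (PP x) \ powersetCard k G).card + G.card.choose k = N.choose k := by
    rw [← card_powersetCard, ← card_powersetCard k (PP x)]
    exact card_sdiff_add_card_eq_card hsub
  rw [h1, ← sum_sdiff hsub, h2]
  have h5 := choose_ratio N k b hk hN hN0
  have h6 : (N - b).choose k ≤ G.card.choose k := Nat.choose_le_choose _ hGcard
  have h7 : (((powersetCard k (PP x) \ powersetCard k G).card : ℕ) : ℤ) =
      (N.choose k : ℤ) - G.card.choose k := by
    have : (((powersetCard k (PP x) \ powersetCard k G).card : ℕ) : ℤ) + G.card.choose k =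
      N.choose k := by exact_mod_cast h4
    linarith
  rw [h7] at h3
  have h8 : (3 * N.choose k : ℤ) ≤ 4 * G.card.choose k := by
    exact_mod_cast h5.trans (Nat.mul_le_mul_left 4 h6)
  linarith

/-- **few moduli** -/
theorem few_card {x k b Y : ℕ} (hx : 1 ≤ x) (hk : 1 ≤ k) (hN : 4 * b * k ≤ (PP x).card)
    (hN0 : 1 ≤ (PP x).card) (hY : 8 * Y ^ 2 ≤ (PP x).card.choose k) (D : Finset ℕ)
    (hD : ∀ d ∈ D, Odd d ∧ Squarefree d ∧ d ≤ Y ∧ Few x b d) :
    D.card * (PP x).card.choose k ≤ 16 * x ^ k := by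
  set C : ℕ := (PP x).card.choose k with hC
  rcases Nat.eq_zero_or_pos C with hC0 | hC0
  · rw [hC0, mul_zero]
    exact Nat.zero_le _
  have hPlt : ∀ q ∈ PK x k, q < x ^ k + 1 := by
    intro q hq
    unfold PK at hq
    rw [mem_image] at hq
    obtain ⟨T, hT, rfl⟩ := hq
    rw [mem_powersetCard] at hT
    have h1 : ∏ p ∈ T, p ≤ ∏ _p ∈ T, x :=
      prod_le_prod' fun p hp => (mem_PP.1 (hT.1 hp)).1.2
    rw [prod_const, hT.2] at h1
    omega
  have hls := Pool.Agent.H591R2.large_sieve D (PK x k) (x ^ k + 1) Y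
    (fun d hd => ⟨(hD d hd).1, (hD d hd).2.1, (hD d hd).2.2.1⟩) hPlt
  rw [card_PK, ← hC] at hls
  have h1 : (D.card : ℤ) * (C : ℤ) ^ 2 ≤ 4 * ∑ d ∈ D, (∑ q ∈ PK x k, jacobiSym q d) ^ 2 := by
    rw [mul_sum, ← nsmul_eq_mul, ← sum_const]
    refine sum_le_sum fun d hd => ?_
    have h2 := lower hk hN hN0 (hD d hd).2.2.2
    rw [← hC] at h2
    have h3 : (0 : ℤ) ≤ C := by positivity
    nlinarith
  have h2 : (D.card : ℤ) * (C : ℤ) ^ 2 ≤ 4 * (C * ((x ^ k + 1 : ℕ) + D.card * (Y : ℤ) ^ 2)) := by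
    refine h1.trans (mul_le_mul_of_nonneg_left ?_ (by norm_num))
    exact_mod_cast hls
  have h3 : (C : ℤ) * (D.card * C) ≤ C * (4 * ((x ^ k + 1 : ℕ) + D.card * (Y : ℤ) ^ 2)) := by
    nlinarith
  have hC1 : (0 : ℤ) < C := by exact_mod_cast hC0
  have h4 := le_of_mul_le_mul_left h3 hC1
  have h5 : (8 * (Y : ℤ) ^ 2) ≤ C := by exact_mod_cast hY
  have h6 : (D.card : ℤ) * (8 * (Y : ℤ) ^ 2) ≤ D.card * C :=
    mul_le_mul_of_nonneg_left h5 (Nat.cast_nonneg _)
  have h7 : (1 : ℤ) ≤ (x : ℤ) ^ k := by exact_mod_cast Nat.one_le_pow k x hx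
  have h8 : (D.card : ℤ) * C ≤ 16 * (x : ℤ) ^ k := by
    push_cast at h4
    nlinarith
  exact_mod_cast h8

end Pool.Agent.R503.PS
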